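import Pool.Agent.W_a4f561_h1.Def

/-!
MP_a4f561_co, polylog: adding the labels of one side (`MS.add`): cells, ancestors, and the fields (I2) and (CUST) (helper66).
-/

set_option autoImplicit false

namespace Pool.Agent.W_a4f561_P66

open Pool.Agent.W_a4f561_h26 Pool.Agent.W_a4f561_P73 Pool.Agent.W_a4f561_P45
open Pool.Agent.W_a4f561_h1

variable {V : Type} {G : Bars V} {Y : MS V} {b : Bool} {k i0 ρ q : ℕ} {F : ℕ → Set V} {s e : ℕ → ℕ}
  {evn : Bool → V → V → Prop}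

theorem add_cell_in (hd : ∀ l l', l < q → l' < q → l ≠ l' → ∀ u ∈ F l, u ∉ F l') {l : ℕ} (hl : l < q) {u : V}
    (hu : u ∈ F l) : (Y.add k b i0 ρ q F s e evn).cell u = Y.nl + l := by
  classical
  have h : ∃ l, l < q ∧ u ∈ F l := ⟨l, hl, hu⟩
  have h1 : (Y.add k b i0 ρ q F s e evn).cell u = Y.nl + h.choose := by
    show (if h : ∃ l, l < q ∧ u ∈ F l then Y.nl + h.choose else Y.cell u) = _
    rw [dif_pos h]
  rw [h1]
  congr 1
  by_contra hne
  exact hd l h.choose hl h.choose_spec.1 (fun h2 => hne h2.symm) u hu h.choose_spec.2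

theorem add_cell_out {u : V} (hu : ∀ l, l < q → u ∉ F l) : (Y.add k b i0 ρ q F s e evn).cell u = Y.cell u := by
  classical
  show (if h : ∃ l, l < q ∧ u ∈ F l then Y.nl + h.choose else Y.cell u) = _
  rw [dif_neg]
  rintro ⟨l, h1, h2⟩
  exact hu l h1 h2

theorem add_old {i : ℕ} (hi : i < Y.nl) : (Y.add k b i0 ρ q F s e evn).par i = Y.par i ∧
    (Y.add k b i0 ρ q F s e evn).s i = Y.s i ∧ (Y.add k b i0 ρ q F s e evn).e i = Y.e i ∧
    (Y.add k b i0 ρ q F s e evn).rk i = Y.rk i ∧ (Y.add k b i0 ρ q F s e evn).ph i = Y.ph i ∧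
    (Y.add k b i0 ρ q F s e evn).sd i = Y.sd i := by
  have h : ¬ (Y.nl ≤ i ∧ i < Y.nl + q) := by omega
  exact ⟨if_neg h, if_neg h, if_neg h, if_neg h, if_neg h, if_neg h⟩

theorem add_new {l : ℕ} (hl : l < q) : (Y.add k b i0 ρ q F s e evn).par (Y.nl + l) = i0 ∧
    (Y.add k b i0 ρ q F s e evn).s (Y.nl + l) = s l ∧ (Y.add k b i0 ρ q F s e evn).e (Y.nl + l) = e l ∧
    (Y.add k b i0 ρ q F s e evn).rk (Y.nl + l) = ρ ∧ (Y.add k b i0 ρ q F s e evn).ph (Y.nl + l) = k ∧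
    (Y.add k b i0 ρ q F s e evn).sd (Y.nl + l) = b := by
  have h : Y.nl ≤ Y.nl + l ∧ Y.nl + l < Y.nl + q := by omega
  have h1 : Y.nl + l - Y.nl = l := by omega
  refine ⟨if_pos h, ?_, ?_, if_pos h, if_pos h, if_pos h⟩
  · show (if Y.nl ≤ Y.nl + l ∧ Y.nl + l < Y.nl + q then s (Y.nl + l - Y.nl) else Y.s (Y.nl + l)) = s l
    rw [if_pos h, h1]
  · show (if Y.nl ≤ Y.nl + l ∧ Y.nl + l < Y.nl + q then e (Y.nl + l - Y.nl) else Y.e (Y.nl + l)) = e l
    rw [if_pos h, h1]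

theorem add_cls_old {i : ℕ} (hi : i < Y.nl) : (Y.add k b i0 ρ q F s e evn).cls i = Y.cls i := by
  obtain ⟨_, _, _, _, h5, h6⟩ := add_old (k := k) (b := b) (i0 := i0) (ρ := ρ) (q := q) (F := F) (s := s) (e := e)
    (evn := evn) hi
  show ((Y.add k b i0 ρ q F s e evn).ph i, (Y.add k b i0 ρ q F s e evn).sd i) = (Y.ph i, Y.sd i)
  rw [h5, h6]

theorem add_cls_new {l : ℕ} (hl : l < q) : (Y.add k b i0 ρ q F s e evn).cls (Y.nl + l) = (k, b) := by
  obtain ⟨_, _, _, _, h5, h6⟩ := add_new (Y := Y) (k := k) (b := b) (i0 := i0) (ρ := ρ) (q := q) (F := F) (s := s) (e := e)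
    (evn := evn) hl
  show ((Y.add k b i0 ρ q F s e evn).ph (Y.nl + l), (Y.add k b i0 ρ q F s e evn).sd (Y.nl + l)) = (k, b)
  rw [h5, h6]

/-- Ancestors of an old label. -/
theorem add_anc_old (h0 : Y.par 0 = 0) (hlt : ∀ i, 1 ≤ i → Y.par i < i) {i j : ℕ} (hj : j < Y.nl) :
    Anc (Y.add k b i0 ρ q F s e evn).par i j ↔ Anc Y.par i j := by
  have key : ∀ m j, j < Y.nl → (Y.add k b i0 ρ q F s e evn).par^[m] j = Y.par^[m] j := by
    intro m
    induction m with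
    | zero => intro j _; rfl
    | succ m ih =>
      intro j hj
      have h1 : (Y.add k b i0 ρ q F s e evn).par j = Y.par j := (add_old hj).1
      have h2 : Y.par j < Y.nl := by
        rcases Nat.eq_zero_or_pos j with h | h
        · rw [h, h0, ← h]
          exact hj
        · exact (hlt j h).trans hj
      rw [Function.iterate_succ_apply, Function.iterate_succ_apply, h1, ih _ h2]
  constructor
  · rintro ⟨m, hm⟩
    exact ⟨m, by rw [← key m j hj, hm]⟩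
  · rintro ⟨m, hm⟩
    exact ⟨m, by rw [key m j hj, hm]⟩

/-- Ancestors of a new label. -/
theorem add_anc_new (h0 : Y.par 0 = 0) (hlt : ∀ i, 1 ≤ i → Y.par i < i) (hi0 : i0 < Y.nl) {i l : ℕ} (hl : l < q) :
    Anc (Y.add k b i0 ρ q F s e evn).par i (Y.nl + l) ↔ i = Y.nl + l ∨ Anc Y.par i i0 := by
  rw [anc_iff, (add_new hl).1, add_anc_old h0 hlt hi0]

/-- A vertex below an old label stays below it. -/
theorem add_C (h0 : Y.par 0 = 0) (hlt : ∀ i, 1 ≤ i → Y.par i < i) (hi0 : i0 < Y.nl) (hc : ∀ u, Y.cell u < Y.nl)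
    (hsub : ∀ l, l < q → ∀ u ∈ F l, Y.cell u = i0)
    (hd : ∀ l l', l < q → l' < q → l ≠ l' → ∀ u ∈ F l, u ∉ F l') {i : ℕ} {u : V} (hu : Anc Y.par i (Y.cell u)) :
    Anc (Y.add k b i0 ρ q F s e evn).par i ((Y.add k b i0 ρ q F s e evn).cell u) := by
  by_cases h : ∃ l, l < q ∧ u ∈ F l
  · obtain ⟨l, hl, h1⟩ := h
    rw [add_cell_in hd hl h1, add_anc_new h0 hlt hi0 hl]
    right
    rw [← hsub l hl u h1]
    exact hu
  · rw [add_cell_out (fun l hl h1 => h ⟨l, hl, h1⟩), add_anc_old h0 hlt (hc u)]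
    exact hu

/-- Below an old label after the addition: it was below it before. -/
theorem add_C' (h0 : Y.par 0 = 0) (hlt : ∀ i, 1 ≤ i → Y.par i < i) (hi0 : i0 < Y.nl) (hc : ∀ u, Y.cell u < Y.nl)
    (hsub : ∀ l, l < q → ∀ u ∈ F l, Y.cell u = i0)
    (hd : ∀ l l', l < q → l' < q → l ≠ l' → ∀ u ∈ F l, u ∉ F l') {i : ℕ} (hi : i < Y.nl) {u : V}
    (hu : Anc (Y.add k b i0 ρ q F s e evn).par i ((Y.add k b i0 ρ q F s e evn).cell u)) :
    Anc Y.par i (Y.cell u) := by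
  by_cases h : ∃ l, l < q ∧ u ∈ F l
  · obtain ⟨l, hl, h1⟩ := h
    rw [add_cell_in hd hl h1, add_anc_new h0 hlt hi0 hl] at hu
    rcases hu with h2 | h2
    · omega
    · rw [hsub l hl u h1]
      exact h2
  · rw [add_cell_out (fun l hl h1 => h ⟨l, hl, h1⟩), add_anc_old h0 hlt (hc u)] at hu
    exact hu

section wi

variable [Fintype V] [DecidableEq V] {rnk : V → ℕ} {N k0 : ℕ} {c : V} {κ : ℝ} {M : ℕ} {B : Set V}

/-- (I2) after the addition. -/
theorem add_I2 (hW : WI G rnk N k0 Y c) (hi0 : i0 < Y.nl)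
    (hF : Fam G Y.σ (Y.D i0) B κ M q F s e) :
    ∀ i, 1 ≤ i → ∀ v ∈ Y.σ.S, G.inn v → v ∈ (Y.add k b i0 ρ q F s e evn).C i →
      Y.σ.pi v ∈ (Y.add k b i0 ρ q F s e evn).C i ∨ Y.σ.pi v ∈ (Y.add k b i0 ρ q F s e evn).Ex G i := by
  have h0 := hW.lab.par0
  have hlt := hW.par_lt
  have hc := hW.cell_lt
  have hsub : ∀ l, l < q → ∀ u ∈ F l, Y.cell u = i0 := fun l hl u hu => (hF.sub l hl hu).2
  intro i hi v hv hvi hC
  have hout : ∀ l, l < q → v ∉ F l := fun l hl h => (hF.sub l hl h).1 hv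
  have hC1 : Anc (Y.add k b i0 ρ q F s e evn).par i ((Y.add k b i0 ρ q F s e evn).cell v) := hC
  rw [add_cell_out hout, add_anc_old h0 hlt (hc v)] at hC1
  have hinl : i < Y.nl := lt_of_le_of_lt (anc_le h0 hlt hC1) (hc v)
  rcases hW.I2 i hi v hv hvi hC1 with h | h
  · left
    exact add_C h0 hlt hi0 hc hsub hF.dis h
  · right
    rcases h with h | ⟨j, j1, j2, j3, j4⟩
    · left
      obtain ⟨h1, h2⟩ := h
      refine ⟨?_, ?_⟩
      · rw [(add_old hinl).2.2.2.2.1]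
        exact h1
      · rw [(add_old hinl).2.2.1]
        exact h2
    · right
      refine ⟨j, j1, j2, ?_, ?_⟩
      · rw [add_cls_old (j2.trans hinl), add_cls_old hinl]
        exact j3
      · exact add_C h0 hlt hi0 hc hsub hF.dis j4

/-- (CUST) after the addition. -/
theorem add_cust (hW : WI G rnk N k0 Y c) (hi0 : i0 < Y.nl)
    (hF : Fam G Y.σ (Y.D i0) B κ M q F s e)
    (hhd : ∀ kd v w, evn kd v w → ∀ y, Hd (sG G b) kd v y →
      (y ∈ Y.P G k ∧ G.t y ≤ G.t w) ∨ ∃ l, l < q ∧ e l ≤ G.t w ∧ y ∈ F l) :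
    ∀ k' b' kd v w, (Y.add k b i0 ρ q F s e evn).ev k' b' kd v w → ∀ y, Hd (sG G b') kd v y →
      (Y.add k b i0 ρ q F s e evn).Kept G k' b' w y := by
  have h0 := hW.lab.par0
  have hlt := hW.par_lt
  have hc := hW.cell_lt
  have hsub : ∀ l, l < q → ∀ u ∈ F l, Y.cell u = i0 := fun l hl u hu => (hF.sub l hl hu).2
  intro k' b' kd v w hev y hy
  have hev' : if k' = k ∧ b' = b then evn kd v w else Y.ev k' b' kd v w := hev
  by_cases hn : k' = k ∧ b' = b
  · rw [if_pos hn] at hev'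
    obtain ⟨rfl, rfl⟩ := hn
    rcases hhd kd v w hev' y hy with h | ⟨l, l1, l2, l3⟩
    · exact Or.inl h
    · right
      obtain ⟨g1, g2, g3, g4, g5, g6⟩ := add_new (Y := Y) (k := k') (b := b') (i0 := i0) (ρ := ρ) (q := q) (F := F) (s := s)
        (e := e) (evn := evn) l1
      refine ⟨Y.nl + l, ?_, g5, g6, by rw [g3]; exact l2, ?_⟩
      · have := hW.nl_pos
        omega
      · rw [add_cell_in hF.dis l1 l3]
        exact anc_refl _ _
  · rw [if_neg hn] at hev'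
    rcases hW.cust k' b' kd v w hev' y hy with h | ⟨i, i1, i2, i3, i4, i5⟩
    · exact Or.inl h
    · right
      have hinl : i < Y.nl := lt_of_le_of_lt (anc_le h0 hlt i5) (hc y)
      obtain ⟨_, _, g3, _, g5, g6⟩ := add_old (Y := Y) (k := k) (b := b) (i0 := i0) (ρ := ρ) (q := q) (F := F) (s := s)
        (e := e) (evn := evn) hinl
      exact ⟨i, i1, by rw [g5]; exact i2, by rw [g6]; exact i3, by rw [g3]; exact i4,
        add_C h0 hlt hi0 hc hsub hF.dis i5⟩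

end wi

end Pool.Agent.W_a4f561_P66
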