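import Pool.Agent.W_a4f561_P66.Geo66
import Pool.Agent.W_a4f561_P25.Area

/-!
MP_a4f561_co, polylog: (CUST), the geometric part. A head `y` of an old D-step `v → lo v` which is in an area of a new phase
(the route of `z` up to the time `tl`): the area is above the barrier `lo v`, and the host of the new phase at the first
touch is a short head of the same step, before `y` (helper66).
-/

set_option autoImplicit false

namespace Pool.Agent.W_a4f561_P66

open Pool.Agent.W_a4f561_h26
open Pool.Agent.W_a4f561_P73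
open Pool.Agent.W_a4f561_P25

variable {V : Type} {G : Bars V}

/-- A vertex which is neither in an area nor on the phase is never strictly between the phase and a barrier. -/
theorem no_btw {π : V → V} (hπ : Ch G π) {z : V} {tl : ℕ} (hN : tl ≤ G.N) (hl : G.t (host G π z tl) = tl)
    {u bar : V} {a c s : ℕ} (ha : Tc G π z tl bar a) (hc : Tc G π z tl bar c)
    (hA : ¬ ArD G π z tl u) (hO : ¬ (Orb π z u ∧ G.t u ≤ tl)) (h1 : a ≤ s) (h2 : s ≤ c) (h3 : G.al u s)
    (h4 : G.r (host G π z s) < G.r u) (h5 : G.r u < G.r bar) : False := by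
  rcases Pool.Agent.W_a4f561_P25.between hπ hN ha hc h1 h2 h3 h4 h5 with h6 | ⟨h6, h7⟩
  · exact hA ⟨_, _, _, h6⟩
  · refine hO ⟨h6, h7.trans ?_⟩
    have hcN : c ≤ G.N := hc.2.1.trans hN
    rcases le_or_gt (G.t (host G π z c)) tl with h8 | h8
    · exact h8
    · exfalso
      have h9 := host_host hπ (u := z) hc.2.1 hN
      have h10 : host G π (host G π z c) tl = host G π z c := host_self hπ h8.le
      rw [← h9, h10] at hl
      omega

/-- The head `y` of the old step `v → lo v` in an area of the phase. -/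
theorem head_area {π : V → V} (hπ : Ch G π) {z : V} {tl : ℕ} (hN : tl ≤ G.N) (hl : G.t (host G π z tl) = tl)
    {v y : V} {τ : ℕ} (hv : G.inn v) (hx : G.inn (G.lo v))
    (hvA : ¬ Area G π z tl v) (hxA : ¬ Area G π z tl (G.lo v))
    (hvO : ¬ (Orb π z v ∧ G.t v ≤ tl)) (hxO : ¬ (Orb π z (G.lo v) ∧ G.t (G.lo v) ≤ tl))
    (h1 : G.t v < τ) (h2 : τ ≤ G.t (G.lo v)) (hy : y = G.ub (G.lo v) τ) (hin : Area G π z tl y) :
    ∃ a, G.t z < a ∧ a ≤ tl ∧ G.t v < a ∧ a < τ ∧ G.ub (G.lo v) a = host G π z a ∧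
      G.t (host G π z a) < G.t (G.lo v) ∧ G.t y < G.t (G.lo v) := by
  have hτ : τ ≤ G.N := by
    have := G.t_in _ hx.1 hx.2
    omega
  have hxal : G.al (G.lo v) τ := ⟨by have := (al_lo G hv).1.1; omega, h2⟩
  have hyal : G.al y τ := by
    rw [hy]
    exact (ub_spec G hτ hx.2).1
  rcases hin with ⟨bar, a, c, h⟩ | ⟨bar, a, c, h⟩
  · exfalso
    obtain ⟨_, k1, k2, k3⟩ := h.p0 hπ hN
    obtain ⟨hO, ha, hc, _⟩ := h
    have s1 : a ≤ τ := (k1.trans_le hyal.1).le
    have s2 : τ ≤ c := (hyal.2.trans_lt k2).le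
    have hQ : G.al (host G π z τ) τ := host_al hπ (((G.bt z).trans ha.1.le).trans s1) hτ
    have hne : host G π z τ ≠ G.lo v := by
      intro e
      refine hxO ⟨e ▸ host_orb G π z τ, ?_⟩
      rw [← e]
      by_contra hcon
      rw [not_le] at hcon
      have h9 := host_host hπ (u := z) (s2.trans hc.2.1) hN
      have h10 : host G π (host G π z τ) tl = host G π z τ := host_self hπ hcon.le
      rw [← h9, h10] at hl
      omega
    exact geo_above (Q := host G π z) (bar := bar) (a := a) (c := c) (Us := {G.lo v}) (hc.2.1.trans hN)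
      (Set.mem_singleton _) hxal hy.symm s1 s2 hQ (fun h => hne (Set.mem_singleton_iff.1 h)) (k3 τ hyal).1 (k3 τ hyal).2
      (fun u hu s g1 g2 g3 g4 g5 => by
        rw [Set.mem_singleton_iff] at hu
        subst hu
        exact no_btw hπ hN hl ha hc (fun h => hxA (Or.inl h)) hxO g1 g2 g3 g4 g5)
  · have hch : Ch G.mir π := hπ.mir25
    obtain ⟨_, k1, k2, k3⟩ := h.p0 (G := G.mir) hch hN
    obtain ⟨hO, ha, hc, _⟩ := h
    have s1 : a ≤ τ := (k1.trans_le hyal.1).le
    have s2 : τ ≤ c := (hyal.2.trans_lt k2).le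
    have r1 : ∀ u w, G.mir.r u < G.mir.r w ↔ G.r w < G.r u := fun u w => W_a4f561_B31.mir_r_lt G u w
    have hb1 : G.al bar a := by
      let _ := G.mir.ord
      exact (ha.up (G := G.mir) hch hN).ay
    have hb2 := hc.y_t (G := G.mir) hch hN
    have hbal : G.al bar τ := ⟨hb1.1.trans s1, s2.trans (le_of_lt hb2)⟩
    have hk := k3 τ hyal
    rw [r1, r1] at hk
    have hfree : ∀ u ∈ ({v, G.lo v} : Set V), ∀ s, a ≤ s → s ≤ c → G.al u s → G.r bar < G.r u →
        G.r u < G.r (host G π z s) → False := by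
      intro u hu s g1 g2 g3 g4 g5
      have hu' : ¬ Area G π z tl u ∧ ¬ (Orb π z u ∧ G.t u ≤ tl) := by
        rcases hu with hu | hu
        · rw [hu]
          exact ⟨hvA, hvO⟩
        · rw [Set.mem_singleton_iff] at hu
          rw [hu]
          exact ⟨hxA, hxO⟩
      exact no_btw (G := G.mir) hch hN hl ha hc (fun h => hu'.1 (Or.inr h)) hu'.2 g1 g2 g3 ((r1 _ _).2 g5)
        ((r1 _ _).2 g4)
    have hb : bar = G.lo v :=
      geo_below_bar (G := G) (Q := host G π z) (bar := bar) (a := a) (c := c) (Us := {v, G.lo v}) (hc.2.1.trans hN)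
        (Or.inr rfl) hxal hx.2 hy.symm s1 s2 hbal hk.2 hk.1 hfree
    have hQU : ∀ s, a ≤ s → s ≤ c → host G π z s ∉ ({v, G.lo v} : Set V) := by
      intro s g1 g2 hu
      have hcl : ∀ u, host G π z s = u → ¬ (Orb π z u ∧ G.t u ≤ tl) → False := by
        intro u e hu
        refine hu ⟨e ▸ host_orb G π z s, ?_⟩
        rw [← e]
        by_contra hcon
        rw [not_le] at hcon
        have h9 := host_host hπ (u := z) (g2.trans hc.2.1) hN
        have h10 : host G π (host G π z s) tl = host G π z s := host_self hπ hcon.le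
        rw [← h9, h10] at hl
        omega
      rcases hu with hu | hu
      · exact hcl _ hu hvO
      · exact hcl _ (Set.mem_singleton_iff.1 hu) hxO
    have hg := geo_head (G := G) (Q := host G π z) (x := G.lo v) (v := v) (a := a) (c := c) (τ := τ)
      (Us := {v, G.lo v}) (hc.2.1.trans hN) hv rfl (Or.inl rfl) h1 s2
      (fun s g1 g2 => host_al hπ (((G.bt z).trans ha.1.le).trans g1) ((g2.trans hc.2.1).trans hN)) hQU
      (fun s g1 g2 => by
        rw [← hb]
        exact (r1 _ _).1 (Tc.lt (G := G.mir) hch hN ha hc g1 g2))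
      (fun u hu s g1 g2 g3 g4 g5 => hfree u hu s g1 g2 g3 (by rw [hb]; exact g4) g5) (s1.trans s2)
      (by rw [← hb]; exact ha.2.2.1)
    have ht : G.t (host G π z a) < G.t (G.lo v) := by
      rw [← hb]
      exact ha.2.2.2
    have hty : G.t y < G.t (G.lo v) := by
      rw [← hb]
      exact k2.trans hb2
    exact ⟨a, ha.1, ha.2.1, hg.1, k1.trans_le hyal.1, hg.2, ht, hty⟩

/-- (CUST), the geometric core: a short head of the old step `v → lo v` seen before the first long head, which is in an area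
of the phase: some vertex of the phase is a short head of the same step. -/
theorem head_area_sh {π : V → V} (hπ : Ch G π) {z : V} {tl : ℕ} (hN : tl ≤ G.N) (hl : G.t (host G π z tl) = tl)
    {v y : V} (hv : G.inn v) (hx : G.inn (G.lo v))
    (hvA : ¬ Area G π z tl v) (hxA : ¬ Area G π z tl (G.lo v))
    (hvO : ¬ (Orb π z v ∧ G.t v ≤ tl)) (hxO : ¬ (Orb π z (G.lo v) ∧ G.t (G.lo v) ≤ tl))
    (hy : Sh G v y) (hin : Area G π z tl y) :
    ∃ a, G.t z < a ∧ a ≤ tl ∧ Sh G v (host G π z a) := by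
  obtain ⟨τ, h1, h2, h3⟩ := hy
  have ht := (tau1_spec G hv hx).2.1
  obtain ⟨a, g1, g2, g3, g4, g5, _⟩ := head_area hπ hN hl hv hx hvA hxA hvO hxO h1 (h2.le.trans ht) h3 hin
  exact ⟨a, g1, g2, a, g3, g4.trans h2, g5.symm⟩

/-- The first long head of an old step is not in an area. -/
theorem flh_no_area {π : V → V} (hπ : Ch G π) {z : V} {tl : ℕ} (hN : tl ≤ G.N) (hl : G.t (host G π z tl) = tl)
    {v : V} (hv : G.inn v) (hx : G.inn (G.lo v))
    (hvA : ¬ Area G π z tl v) (hxA : ¬ Area G π z tl (G.lo v))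
    (hvO : ¬ (Orb π z v ∧ G.t v ≤ tl)) (hxO : ¬ (Orb π z (G.lo v) ∧ G.t (G.lo v) ≤ tl)) :
    ¬ Area G π z tl (G.flh v) := by
  intro hin
  obtain ⟨h1, h2, h3, _⟩ := tau1_spec G hv hx
  obtain ⟨a, _, _, _, _, _, _, g⟩ := head_area hπ hN hl hv hx hvA hxA hvO hxO h1 h2 rfl hin
  exact lt_asymm h3 g

end Pool.Agent.W_a4f561_P66
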