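import Pool.Agent.W_a4f561_h1.Def
import Pool.Agent.W_a4f561_P66.HdA66

/-!
MP_a4f561_co, polylog: the fields (I2) and (CUST) of the invariant after the draw of a phase (helper66).
-/

set_option autoImplicit false

namespace Pool.Agent.W_a4f561_P66

open Pool.Agent.W_a4f561_h26 Pool.Agent.W_a4f561_P73 Pool.Agent.W_a4f561_P45
open Pool.Agent.W_a4f561_P25 (Tc Ar Area)
open Pool.Agent.W_a4f561_h1

variable {V : Type} {G : Bars V}

section route

variable {π : V → V} {D : Set V} {z e vl : V}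

/-- The path before the exit: exactly the vertices of the route which are earlier than the exit. -/
theorem pd_iff (hE : Exi D G π z e) {v : V} : PD G D π z v ↔ Orb π z v ∧ G.t v < G.t e := by
  constructor
  · rintro ⟨h1, h2⟩
    refine ⟨h1, ?_⟩
    by_contra hc
    exact hE.2.1 (h2 e hE.1 (not_lt.1 hc))
  · rintro ⟨h1, h2⟩
    exact ⟨h1, fun u hu hle => hE.2.2 u hu (lt_of_le_of_lt hle h2)⟩

theorem pd_D {v : V} (h : PD G D π z v) : v ∈ D := h.2 v h.1 le_rfl

theorem ch_t {π : V → V} (hπ : Ch G π) {v : V} (hv : G.inn v) : G.t v < G.t (π v) := by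
  rcases hπ.2.2 v hv with h | h
  · rw [h]
    exact t_lo G hv
  · rw [h]
    exact t_up G hv

theorem ch_le {π : V → V} (hπ : Ch G π) (v : V) : G.t v ≤ G.t (π v) := orb_t hπ ⟨1, rfl⟩

/-- The next vertex of the path is the exit or on the path. -/
theorem pd_next (hπ : Ch G π) (hE : Exi D G π z e) {v : V} (h : PD G D π z v) : π v = e ∨ PD G D π z (π v) := by
  by_cases h1 : π v = e
  · exact Or.inl h1
  · right
    rw [pd_iff hE] at h ⊢
    refine ⟨orb_step h.1, ?_⟩
    obtain ⟨k, hk⟩ := orb_comp hπ h.1 hE.1 h.2.le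
    rcases k with _ | k
    · exfalso
      have h2 : v = e := hk
      rw [h2] at h
      exact lt_irrefl _ h.2
    · have h3 : Orb π (π v) e := ⟨k, by rw [← hk, Function.iterate_succ_apply]⟩
      exact lt_of_le_of_ne (orb_t hπ h3) fun h4 => h1 (G.t_inj h4)

theorem pd_inn (hDi : ∀ v ∈ D, G.inn v) {v : V} (h : PD G D π z v) : G.inn v := hDi v (pd_D h)

/-- `vl` is the last vertex of the path. -/
theorem pd_last (hπ : Ch G π) (hE : Exi D G π z e) (hvl : PD G D π z vl) (he : π vl = e) {v : V}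
    (h : PD G D π z v) : G.t v ≤ G.t vl := by
  by_contra hc
  rw [not_le] at hc
  obtain ⟨k, hk⟩ := orb_comp hπ hvl.1 h.1 hc.le
  rcases k with _ | k
  · have h2 : vl = v := hk
    rw [h2] at hc
    exact lt_irrefl _ hc
  · have h3 : Orb π e v := ⟨k, by rw [← hk, Function.iterate_succ_apply, he]⟩
    have h4 := orb_t hπ h3
    have h5 := ((pd_iff hE).1 h).2
    omega

/-- A choice function `ρ` which agrees with `π` on the path: the same path. -/
theorem pd_orb {ρ : V → V}
    (hag : ∀ v, PD G D π z v → ρ v = π v) {v : V} (h : PD G D π z v) (hπ : Ch G π) : Orb ρ z v := by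
  obtain ⟨⟨k, hk⟩, h2⟩ := h
  have key : ∀ j, j ≤ k → ρ^[j] z = π^[j] z := by
    intro j
    induction j with
    | zero => intro _; rfl
    | succ j ih =>
      intro hj
      rw [Function.iterate_succ_apply', Function.iterate_succ_apply', ih (by omega)]
      refine hag _ ⟨⟨j, rfl⟩, fun u hu hle => h2 u hu (hle.trans ?_)⟩
      refine orb_t hπ ⟨k - j, ?_⟩
      rw [← hk, ← Function.iterate_add_apply]
      congr 1
      omega
  exact ⟨k, by rw [key k le_rfl, hk]⟩

theorem orb_pd {ρ : V → V} (hπ : Ch G π) (hρ : Ch G ρ) (hE : Exi D G π z e) (hDi : ∀ v ∈ D, G.inn v)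
    (hvl : PD G D π z vl) (he : π vl = e)
    (hag : ∀ v, PD G D π z v → ρ v = π v) {v : V} (h : Orb ρ z v) (ht : G.t v ≤ G.t vl) : PD G D π z v := by
  have hz : PD G D π z z := by
    rw [pd_iff hE]
    exact ⟨⟨0, rfl⟩, lt_of_le_of_lt (orb_t hπ hvl.1) ((pd_iff hE).1 hvl).2⟩
  obtain ⟨k, hk⟩ := h
  have key : ∀ j, PD G D π z (ρ^[j] z) ∨ G.t vl < G.t (ρ^[j] z) := by
    intro j
    induction j with
    | zero => exact Or.inl hz
    | succ j ih =>
      rw [Function.iterate_succ_apply']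
      rcases ih with h1 | h1
      · rw [hag _ h1]
        rcases pd_next hπ hE h1 with h2 | h2
        · right
          rw [h2, ← he]
          exact ch_t hπ (pd_inn hDi hvl)
        · exact Or.inl h2
      · exact Or.inr (lt_of_lt_of_le h1 (ch_le hρ _))
  rcases key k with h1 | h1
  · rwa [hk] at h1
  · rw [hk] at h1
    omega

end route

theorem mir_N (G : Bars V) (b : Bool) : (sG G b).N = G.N := by cases b <;> rfl

theorem mir_t (G : Bars V) (b : Bool) (v : V) : (sG G b).t v = G.t v := by cases b <;> rfl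

theorem sG_ch {π : V → V} (h : Ch G π) (b : Bool) : Ch (sG G b) π := by
  cases b
  · exact h
  · exact ch_mir.2 h

theorem sG_inn (b : Bool) {v : V} : (sG G b).inn v ↔ G.inn v := by
  cases b
  · exact Iff.rfl
  · exact inn_mir G

theorem sG_host (b : Bool) (π : V → V) (u : V) (τ : ℕ) : host (sG G b) π u τ = host G π u τ := by
  cases b <;> rfl

theorem sG_area (b : Bool) {π : V → V} {z u : V} {tl : ℕ} : Area (sG G b) π z tl u ↔ Area G π z tl u := by
  cases b
  · exact Iff.rfl
  · exact Pool.Agent.W_a4f561_P25.Area.mir_iff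

theorem law_ch {σ : St V} (hb : G.bot ∈ σ.S) (ht : G.top ∈ σ.S) (hch : Ch G σ.pi) (ω : V × Bool → Bool) :
    Ch G (law G σ ω) := by
  refine ⟨?_, ?_, fun v hv => ?_⟩
  · unfold law
    rw [if_pos (show G.bot ∈ σ.S ∪ σ.Dec from Or.inl hb)]
    exact hch.1
  · unfold law
    rw [if_pos (show G.top ∈ σ.S ∪ σ.Dec from Or.inl ht)]
    exact hch.2.1
  · unfold law
    split_ifs
    · exact hch.2.2 v hv
    · rcases zz_cases G hv with h | h
      · exact Or.inr h.1
      · exact Or.inl h.1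
    · rcases zz_cases G hv with h | h
      · exact Or.inl h.2.1
      · exact Or.inr h.2.1

section draw

variable [Fintype V] [DecidableEq V] {rnk : V → ℕ} {N : ℕ} {X : MS V} {z e vl r : V} {ω : V × Bool → Bool}
  {σ1 : St V}

/-- The cell of the draw. -/
abbrev Dc (X : MS V) (z : V) : Set V := X.D (X.cell z)

omit [Fintype V] [DecidableEq V] in
theorem D_inn (hI : WInv G X.σ z) {i : ℕ} {v : V} (hv : v ∈ X.D i) : G.inn v :=
  ⟨fun h => hv.1 (h ▸ hI.bot_mem), fun h => hv.1 (h ▸ hI.top_mem)⟩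

/-- (I2) after the draw. -/
theorem draw_I2 (hW : WI G rnk N 0 X z) (hE : Exi (Dc X z) G (law G X.σ ω) z e) (heE : e ∈ X.E G (X.cell z))
    (hD : Dr1 G X.σ (Dc X z) ω z e vl σ1) {A : Set V} (hA : ∀ u ∈ σ1.S, u ∉ A) :
    ∀ i, 1 ≤ i → ∀ v ∈ σ1.S, G.inn v → v ∈ (X.draw σ1 (Bp G X.σ (Dc X z) ω z) A z r).C i →
      σ1.pi v ∈ (X.draw σ1 (Bp G X.σ (Dc X z) ω z) A z r).C i ∨
      σ1.pi v ∈ (X.draw σ1 (Bp G X.σ (Dc X z) ω z) A z r).Ex G i := by
  classical
  have hπ : Ch G (law G X.σ ω) := law_ch hW.inv.bot_mem hW.inv.top_mem hW.inv.ch ω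
  have hz : z ∈ Bp G X.σ (Dc X z) ω z := by
    show PD G _ _ _ _
    rw [pd_iff hE]
    exact ⟨⟨0, rfl⟩, lt_of_le_of_lt (orb_t hπ hD.vlB.1) ((pd_iff hE).1 hD.vlB).2⟩
  have hcS : ∀ u ∈ σ1.S, (X.draw σ1 (Bp G X.σ (Dc X z) ω z) A z r).cell u = X.cell u := fun u hu => by
    show (if u ∈ A then X.cell z else X.cell u) = X.cell u
    rw [if_neg (hA u hu)]
  have hcA : ∀ u ∈ A, (X.draw σ1 (Bp G X.σ (Dc X z) ω z) A z r).cell u = X.cell z := fun u hu => by
    show (if u ∈ A then X.cell z else X.cell u) = X.cell z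
    rw [if_pos hu]
  have hcN : ∀ u, u ∉ A → (X.draw σ1 (Bp G X.σ (Dc X z) ω z) A z r).cell u = X.cell u := fun u hu => by
    show (if u ∈ A then X.cell z else X.cell u) = X.cell u
    rw [if_neg hu]
  have hP : ∀ k u, u ∈ X.P G k → u ∈ (X.draw σ1 (Bp G X.σ (Dc X z) ω z) A z r).P G k := fun k u hu => by
    refine ⟨(hD.S u).2 (Or.inl hu.1), hu.2.1, ?_⟩
    show (if u ∈ Bp G X.σ (Dc X z) ω z then X.np + 1 else X.phs u) = k
    rw [if_neg (fun h => (pd_D h).1 hu.1)]
    exact hu.2.2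
  -- exits
  have hEx : ∀ i u, u ∉ A → u ∈ X.Ex G i → u ∈ (X.draw σ1 (Bp G X.σ (Dc X z) ω z) A z r).Ex G i := by
    intro i u hu h
    rcases h with h | ⟨j, h1, h2, h3, h4⟩
    · exact Or.inl ⟨hP _ _ h.1, h.2⟩
    · refine Or.inr ⟨j, h1, h2, h3, ?_⟩
      rw [hcN u hu]
      exact h4
  intro i hi v hv hvi hC
  have hC' : Anc X.par i (X.cell v) := by
    have h1 : Anc X.par i ((X.draw σ1 (Bp G X.σ (Dc X z) ω z) A z r).cell v) := hC
    rwa [hcS v hv] at h1
  rcases (hD.S v).1 hv with hvo | hvB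
  · -- an old vertex
    have hp : σ1.pi v = X.σ.pi v := hD.piO v (Or.inl hvo)
    have hpS : X.σ.pi v ∈ σ1.S := by
      rw [hD.S]
      rcases hW.inv.cl v hvo with h | h
      · exact Or.inl h
      · exact Or.inr (h ▸ hz)
    rw [hp]
    rcases hW.I2 i hi v hvo hvi hC' with h | h
    · left
      show Anc X.par i _
      rw [hcS _ hpS]
      exact h
    · exact Or.inr (hEx i _ (hA _ hpS) h)
  · -- a vertex of the new phase
    have hvB' : PD G (Dc X z) (law G X.σ ω) z v := hvB
    have hp : σ1.pi v = law G X.σ ω v := hD.piB v hvB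
    have hcv : X.cell v = X.cell z := (pd_D hvB').2
    rw [hcv] at hC'
    rw [hp]
    rcases pd_next hπ hE hvB' with h1 | h1
    · rw [h1]
      by_cases heA : e ∈ A
      · left
        show Anc X.par i _
        rw [hcA e heA]
        exact hC'
      · rcases heE.1 with h2 | h2
        · left
          show Anc X.par i _
          rw [hcN e heA]
          exact anc_trans hC' h2
        · rcases anc_iff.1 hC' with h3 | h3
          · rw [← h3] at h2
            exact Or.inr (hEx i e heA h2)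
          · left
            show Anc X.par i _
            rw [hcN e heA]
            have hi0 : 1 ≤ X.cell z := by
              rcases Nat.eq_zero_or_pos (X.cell z) with h4 | h4
              · exfalso
                rw [h4] at h3
                rw [hW.lab.par0] at h3
                have := anc_le hW.lab.par0 hW.par_lt h3
                omega
              · exact h4
            rcases h2 with h2 | ⟨j, g1, g2, g3, g4⟩
            · have h5 := hW.cellS e h2.1.1 h2.1.2.1
              have h6 : X.phs e = X.ph (X.cell z) := h2.1.2.2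
              rw [h5, h6, ← hW.lab_par _ hi0 (hW.cell_lt z)]
              exact h3
            · have g5 : X.par j = X.par (X.cell z) := by
                have g6 : X.ph j = X.ph (X.cell z) := congrArg Prod.fst g3
                rw [hW.lab_par _ hi0 (hW.cell_lt z), hW.lab_par j g1 (g2.trans (hW.cell_lt z)), g6]
              rw [← g5] at h3
              exact anc_trans (anc_trans h3 (anc_par _ _)) g4
    · left
      show Anc X.par i _
      have h2 : law G X.σ ω v ∈ σ1.S := (hD.S _).2 (Or.inr h1)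
      rw [hcS _ h2, (pd_D h1).2]
      exact hC'

/-- (CUST) after the draw. -/
theorem draw_cust (hW : WI G rnk N 0 X z) (hE : Exi (Dc X z) G (law G X.σ ω) z e)
    (hD : Dr1 G X.σ (Dc X z) ω z e vl σ1) :
    ∀ k b kd v w, X.ev k b kd v w → ∀ y, Hd (sG G b) kd v y →
      (X.draw σ1 (Bp G X.σ (Dc X z) ω z) {u | Area G σ1.pi z (G.t vl) u} z r).Kept G k b w y := by
  classical
  have hπ : Ch G (law G X.σ ω) := law_ch hW.inv.bot_mem hW.inv.top_mem hW.inv.ch ω
  have hρ : Ch G σ1.pi := hD.inv.ch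
  have hDi : ∀ v ∈ Dc X z, G.inn v := fun v hv => D_inn hW.inv hv
  have hag : ∀ v, PD G (Dc X z) (law G X.σ ω) z v → σ1.pi v = law G X.σ ω v := fun v hv => hD.piB v hv
  have hvl : G.inn vl := pd_inn hDi hD.vlB
  have hN : G.t vl ≤ G.N := (G.t_in vl hvl.1 hvl.2).le
  have hl : G.t (host G σ1.pi z (G.t vl)) = G.t vl := by
    rw [host_t hρ (pd_orb hag hD.vlB hπ) hvl]
  have hP : ∀ k u, u ∈ X.P G k → u ∈ (X.draw σ1 (Bp G X.σ (Dc X z) ω z) {u | Area G σ1.pi z (G.t vl) u} z r).P G k :=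
    fun k u hu => by
      refine ⟨(hD.S u).2 (Or.inl hu.1), hu.2.1, ?_⟩
      show (if u ∈ Bp G X.σ (Dc X z) ω z then X.np + 1 else X.phs u) = k
      rw [if_neg (fun h => (pd_D h).1 hu.1)]
      exact hu.2.2
  have hcA : ∀ u, Area G σ1.pi z (G.t vl) u →
      (X.draw σ1 (Bp G X.σ (Dc X z) ω z) {u | Area G σ1.pi z (G.t vl) u} z r).cell u = X.cell z := fun u hu => by
    show (if u ∈ {u | Area G σ1.pi z (G.t vl) u} then X.cell z else X.cell u) = X.cell z
    exact if_pos hu
  have hcN : ∀ u, ¬ Area G σ1.pi z (G.t vl) u →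
      (X.draw σ1 (Bp G X.σ (Dc X z) ω z) {u | Area G σ1.pi z (G.t vl) u} z r).cell u = X.cell u := fun u hu => by
    show (if u ∈ {u | Area G σ1.pi z (G.t vl) u} then X.cell z else X.cell u) = X.cell u
    exact if_neg hu
  intro k b kd v w hev y hy
  obtain ⟨_, _, hvP, hxP, _, _, _⟩ := hW.evd k b kd v w hev
  by_cases hyA : Area G σ1.pi z (G.t vl) y
  · -- the old vertices of the phase `k`
    have hold : ∀ u, u ∈ X.P G k → ¬ Area (sG G b) σ1.pi z (G.t vl) u ∧ ¬ (Orb σ1.pi z u ∧ (sG G b).t u ≤ G.t vl) := by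
      intro u hu
      refine ⟨fun h => hD.noS u ((hD.S u).2 (Or.inl hu.1)) ((sG_area b).1 h), fun h => ?_⟩
      rw [mir_t] at h
      exact (pd_D (orb_pd hπ hρ hE hDi hD.vlB hD.vle hag h.1 h.2)).1 hu.1
    have hN' : G.t vl ≤ (sG G b).N := by rw [mir_N]; exact hN
    have hl' : (sG G b).t (host (sG G b) σ1.pi z (G.t vl)) = G.t vl := by
      rw [sG_host, mir_t]
      exact hl
    have hyA' := (sG_area (G := G) b).2 hyA
    rcases hy with ⟨hk, hy⟩ | ⟨hk, hy⟩
    · obtain ⟨a, g1, g2, g3⟩ := head_area_sh (sG_ch hρ b) hN' hl' ((sG_inn b).2 hvP.2.1) ((sG_inn b).2 hxP.2.1)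
        (hold v hvP).1 (hold _ hxP).1 (hold v hvP).2 (hold _ hxP).2 hy hyA'
      rw [sG_host] at g3
      -- the host of the new phase
      have hB : PD G (Dc X z) (law G X.σ ω) z (host G σ1.pi z a) := by
        refine orb_pd hπ hρ hE hDi hD.vlB hD.vle hag (host_orb G σ1.pi z a) ?_
        have h9 := host_add hρ (u := z) (τ := a) (τ' := G.t vl) (by rw [mir_t] at g1; have := G.bt z; omega) g2 hN
        rw [← hl, ← h9]
        exact orb_t hρ (host_orb G σ1.pi _ _)
      rcases hW.cust k b kd v w hev _ (Or.inl ⟨hk, g3⟩) with j1 | ⟨j, j1, j2, j3, j4, j5⟩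
      · exact ((pd_D hB).1 j1.1.1).elim
      · right
        refine ⟨j, j1, j2, j3, j4, ?_⟩
        show Anc X.par j _
        rw [hcA y hyA, ← (pd_D hB).2]
        exact j5
    · exfalso
      rw [hy] at hyA'
      exact flh_no_area (sG_ch hρ b) hN' hl' ((sG_inn b).2 hvP.2.1) ((sG_inn b).2 hxP.2.1)
        (hold v hvP).1 (hold _ hxP).1 (hold v hvP).2 (hold _ hxP).2 hyA'
  · rcases hW.cust k b kd v w hev y hy with h1 | ⟨i, i1, i2, i3, i4, i5⟩
    · exact Or.inl ⟨hP k y h1.1, h1.2⟩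
    · right
      refine ⟨i, i1, i2, i3, i4, ?_⟩
      show Anc X.par i _
      rw [hcN y hyA]
      exact i5

end draw

end Pool.Agent.W_a4f561_P66
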