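import Pool.Agent.W_a4f561_h1.Def

/-!
MP_a4f561_co, polylog: custody at the end. In a final state (all vertices drawn) every promise is kept by the final choice
function, and every phase has own cost at most `3 N + 3` (helper66).
-/

set_option autoImplicit false

namespace Pool.Agent.W_a4f561_P66

open Pool.Agent.W_a4f561_h26 Pool.Agent.W_a4f561_P73 Pool.Agent.W_a4f561_P45
open Pool.Agent.W_a4f561_h1

variable {V : Type} [Fintype V] [DecidableEq V] {G : Bars V} {rnk : V → ℕ} {N k0 : ℕ} {X : MS V} {c : V}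

theorem term_no (hW : WI G rnk N k0 X c) {v : V} (hv : ¬ G.inn v) {i : ℕ} (hi : 1 ≤ i) : ¬ Anc X.par i (X.cell v) := by
  intro h
  have h1 := (hW.I3 i hi v h).2
  have h2 : G.N < G.t v := by
    by_cases hb : v = G.bot
    · rw [hb]
      exact G.t_bot
    · by_cases ht : v = G.top
      · rw [ht]
        exact G.t_top
      · exact (hv ⟨hb, ht⟩).elim
  rcases lt_or_ge i X.nl with h3 | h3
  · obtain ⟨u, hu, hut⟩ := hW.lab_e i hi h3
    have h4 := G.t_in u hu.2.1.1 hu.2.1.2
    omega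
  · have h4 := (hW.dflt i h3).2.2
    omega

/-- Custody: the route of a vertex of the label `i` (in a final state) comes to the phase of `i` in time. -/
theorem custody_lab (hW : WI G rnk N k0 X c) (hall : ∀ v, v ∈ X.σ.S) {i : ℕ} (hi : 1 ≤ i) {y : V}
    (hy : Anc X.par i (X.cell y)) : ∃ u ∈ X.P G (X.ph i), G.t u ≤ X.e i ∧ Orb X.σ.pi y u := by
  obtain ⟨k, _, j, j1, j2, j3, j4⟩ := custody (cls := X.cls) (π := X.σ.pi) (t := G.t) (cell := X.cell) (par := X.par)
    (bd := X.bd G) (Inn := G.inn) (fun v hv i hi => term_no hW hv hi)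
    (fun v hv => by
      rcases hW.inv.ch.2.2 v hv with h | h
      · rw [h]
        exact t_lo G hv
      · rw [h]
        exact t_up G hv)
    (B := G.N) (fun v hv => (G.t_in v hv.1 hv.2).le)
    (fun v hv i hi h => by
      rcases hW.I2 i hi v (hall v) hv h with h1 | h1 | h1
      · exact Or.inl h1
      · exact Or.inr (Or.inl h1)
      · exact Or.inr (Or.inr h1)) hi hy
  have h5 : X.ph j = X.ph i := congrArg Prod.fst j3
  refine ⟨_, ?_, j4.2.trans (hW.lab.e_cls i j j1 j2 j3), k, rfl⟩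
  rw [← h5]
  exact j4.1

/-- Every promise of a final state is kept by the final choice function. -/
theorem custody_end (hW : WI G rnk N k0 X c) (hall : ∀ v, v ∈ X.σ.S) {k : ℕ} {b kd : Bool} {v w : V}
    (hev : X.ev k b kd v w) {y : V} (hy : Hd (sG G b) kd v y) : ∃ u ∈ X.P G k, G.t u ≤ G.t w ∧ Orb X.σ.pi y u := by
  rcases hW.cust k b kd v w hev y hy with h | ⟨i, i1, i2, _, i4, i5⟩
  · exact ⟨y, h.1, h.2, ⟨0, rfl⟩⟩
  · obtain ⟨u, u1, u2, u3⟩ := custody_lab hW hall i1 i5
    rw [i2] at u1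
    exact ⟨u, u1, u2.trans i4, u3⟩

/-- Own cost of every phase in a final state. -/
theorem own_end (hW : WI G rnk N 0 X c) (hall : ∀ v, v ∈ X.σ.S) {k : ℕ} (h1 : 1 ≤ k) (h2 : k ≤ X.np) (b : Bool) :
    CB (sG G b) X.σ.pi (X.P G k) (3 * N + 3) :=
  hW.own k h1 h2 (by omega) X.σ.pi ⟨hW.inv.ch, fun _ _ => rfl⟩
    (fun _ _ _ _ hev _ hy => custody_end hW hall hev hy) b

end Pool.Agent.W_a4f561_P66
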