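import Pool.Agent.W_a4f561_h26.Bas

/-!
MP_a4f561_co, polylog: a head of an old D-step in a new area (geometry for the custody invariant, helper66).
`Q s` is the host of the new path at time `s`, `Us` the old drawn set, `y` a head of the step `v → x`, `lo v = x`.
-/

set_option autoImplicit false

namespace Pool.Agent.W_a4f561_P66

open Pool.Agent.W_a4f561_h26

variable {V : Type} {G : Bars V}

theorem al_le_N {v : V} {τ : ℕ} (h : G.al v τ) (hv : G.inn v) : τ < G.N := lt_of_le_of_lt h.2 (G.t_in v hv.1 hv.2)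

/-- The lower neighbour of the upper neighbour. -/
theorem lb_of_ub {x y : V} {τ : ℕ} (hτ : τ ≤ G.N) (hx : G.al x τ) (hxt : x ≠ G.top) (h : G.ub x τ = y) :
    G.lb y τ = x := by
  obtain ⟨h1, h2, h3⟩ := ub_spec G hτ hxt
  rw [h] at h1 h2 h3
  refine lb_eq G hx h2 fun u hu hlt => ?_
  by_contra hc
  exact absurd (h3 u hu (not_le.1 hc)) (not_le.2 hlt)

/-- The upper neighbour of the lower neighbour. -/
theorem ub_of_lb {x y : V} {τ : ℕ} (hτ : τ ≤ G.N) (hy : G.al y τ) (hyb : y ≠ G.bot) (h : G.lb y τ = x) :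
    G.ub x τ = y := by
  obtain ⟨h1, h2, h3⟩ := lb_spec G hτ hyb
  rw [h] at h1 h2 h3
  refine ub_eq G hy h2 fun u hu hlt => ?_
  by_contra hc
  exact absurd (h3 u hu (not_le.1 hc)) (not_le.2 hlt)

/-- A record above the path: the lower neighbour `x` of an area vertex `y` is not in `Us`. -/
theorem geo_above {Q : ℕ → V} {bar x y : V} {a c τ : ℕ} {Us : Set V} (hN : c ≤ G.N)
    (hx : x ∈ Us) (hxal : G.al x τ) (hy : G.ub x τ = y) (haτ : a ≤ τ) (hτc : τ ≤ c)
    (hQal : G.al (Q τ) τ) (hQU : Q τ ∉ Us) (hQy : G.r (Q τ) < G.r y) (hyb : G.r y < G.r bar)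
    (hfree : ∀ u ∈ Us, ∀ s, a ≤ s → s ≤ c → G.al u s → G.r (Q s) < G.r u → G.r u < G.r bar → False) : False := by
  have hxt : x ≠ G.top := by
    rintro rfl
    have h1 := G.r_top (Q τ)
    have h2 : G.ub G.top τ = G.top := by
      unfold Bars.ub
      rw [dif_neg]
      rintro ⟨u, -, h3, -⟩
      by_cases h4 : u = G.top
      · rw [h4] at h3
        exact lt_irrefl _ h3
      · exact lt_asymm h3 (G.r_top u h4)
    rw [h2] at hy
    rw [← hy] at hyb
    by_cases h4 : bar = G.top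
    · rw [h4] at hyb
      exact lt_irrefl _ hyb
    · exact lt_asymm hyb (G.r_top bar h4)
  have hτN : τ ≤ G.N := hτc.trans hN
  obtain ⟨h1, h2, h3⟩ := ub_spec G hτN hxt
  rw [hy] at h1 h2 h3
  have hQx : G.r (Q τ) ≤ G.r x := by
    by_contra hc
    exact absurd (h3 _ hQal (not_le.1 hc)) (not_le.2 hQy)
  have hne : G.r (Q τ) ≠ G.r x := fun he => hQU (by rw [G.r_inj he]; exact hx)
  exact hfree x hx τ haτ hτc hxal (lt_of_le_of_ne hQx hne) (h2.trans hyb)

/-- A record below the path: the barrier is the lower neighbour `x` of the area vertex `y`. -/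
theorem geo_below_bar {Q : ℕ → V} {bar x y : V} {a c τ : ℕ} {Us : Set V} (hN : c ≤ G.N)
    (hx : x ∈ Us) (hxal : G.al x τ) (hxt : x ≠ G.top) (hy : G.ub x τ = y) (haτ : a ≤ τ) (hτc : τ ≤ c)
    (hbar : G.al bar τ) (hyb : G.r bar < G.r y) (hQy : G.r y < G.r (Q τ))
    (hfree : ∀ u ∈ Us, ∀ s, a ≤ s → s ≤ c → G.al u s → G.r bar < G.r u → G.r u < G.r (Q s) → False) : bar = x := by
  have hτN : τ ≤ G.N := hτc.trans hN
  obtain ⟨h1, h2, h3⟩ := ub_spec G hτN hxt
  rw [hy] at h1 h2 h3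
  have hbx : G.r bar ≤ G.r x := by
    by_contra hc
    exact absurd (h3 _ hbar (not_le.1 hc)) (not_le.2 hyb)
  rcases hbx.lt_or_eq with h | h
  · exact (hfree x hx τ haτ hτc hxal h (h2.trans hQy)).elim
  · exact G.r_inj h

/-- A record below the path with barrier `x = lo v`: the first touch is a head of the step `v → x`. -/
theorem geo_head {Q : ℕ → V} {x v : V} {a c τ : ℕ} {Us : Set V} (hN : c ≤ G.N)
    (hv : G.inn v) (hlo : G.lo v = x) (hvU : v ∈ Us)
    (hvτ : G.t v < τ) (hτc : τ ≤ c)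
    (hQal : ∀ s, a ≤ s → s ≤ c → G.al (Q s) s) (hQU : ∀ s, a ≤ s → s ≤ c → Q s ∉ Us)
    (hQx : ∀ s, a ≤ s → s ≤ c → G.r x < G.r (Q s))
    (hfree : ∀ u ∈ Us, ∀ s, a ≤ s → s ≤ c → G.al u s → G.r x < G.r u → G.r u < G.r (Q s) → False)
    (hac : a ≤ c) (ta : G.lb (Q a) a = x) : G.t v < a ∧ G.ub x a = Q a := by
  have hQb : Q a ≠ G.bot := by
    rintro h
    have h1 := hQx a le_rfl hac
    rw [h] at h1
    by_cases h2 : x = G.bot
    · rw [h2] at h1
      exact lt_irrefl _ h1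
    · exact lt_asymm h1 (G.r_bot x h2)
  refine ⟨?_, ub_of_lb (hac.trans hN) (hQal a le_rfl hac) hQb ta⟩
  by_contra hc
  rw [not_lt] at hc
  have hsc : G.t v ≤ c := by omega
  have hal : G.al v (G.t v) := ⟨G.bt v, le_rfl⟩
  have h1 := hQal _ hc hsc
  have h2 := hQU _ hc hsc
  have h3 := hQx _ hc hsc
  have hr : G.r x < G.r v := by
    rw [← hlo]
    exact r_lo G hv
  rcases lt_trichotomy (G.r v) (G.r (Q (G.t v))) with h | h | h
  · exact hfree v hvU _ hc hsc hal hr h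
  · exact h2 (by rw [← G.r_inj h]; exact hvU)
  · have h4 := (lb_spec G (τ := G.t v) (x := v) (by have := G.t_in v hv.1 hv.2; omega) hv.1).2.2 _ h1 h
    have h5 : G.lb v (G.t v) = x := hlo
    rw [h5] at h4
    exact absurd h3 (not_lt.2 h4)

end Pool.Agent.W_a4f561_P66
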